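import Pool.Agent.H21.Sql

namespace Pool.Agent.Results.MP_f2a227_gt.Chains

open Set Topology Filter Cardinal Pool.Agent.H21.Sql

universe u

theorem result (X : Type u) [TopologicalSpace X] [T2Space X]
    (h : ∀ p : X, Dec (sqL X) (nhds p) ∨ Ury p) : #X ≤ 2 ^ (sqL X * chi X) :=
  main X _ (sqL_mem X).1 (sqL_mem X).2 h

end Pool.Agent.Results.MP_f2a227_gt.Chains
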